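import Pool.Agent.H86.ML.Main

/-!
# MP_1240ee_nt, Q1: points of `M ∖ L` in `(3.945, ν_F)`

The definitions of the two spectra are in `Pool/Agent/H86/ML/Defs.lean`. The answer to Q1 is yes.

Let `w = 31122321212311223232211321212` (length 29). Its bi-infinite repetition has Markov value
`t0 = 3.95155450674351919762526945111154608856798...`. A finite search tree (952 nodes, checked by
the kernel) shows: if all `λ_m(θ) ≤ T = 3.95155450674351919762526945111154609` for `m` near `n`
and `λ_n(θ) ≥ B = 3.9515545067435191976252694511115460887`, then around `n` the sequence `θ`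
shows a fixed window `W` of 95 digits of the repetition of `w`, or its reversal. A second tree
(88 nodes) shows that `W` at `n` forces `W` at `n + 29` as long as the values stay `≤ T`. So to the
right of an occurrence of `W` the sequence is periodic and all later values are `< B`, and the
same holds to the left of an occurrence of the reversal; hence three places far apart with values
`≥ B` cannot occur and `L ∩ (B, T) = ∅`. To the left of `W` the sequence is free: the
sequence `...2222 (52 digits) [3] 1122321212...` has all values in `(0, T)` and one value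
`> B`, which gives a point of `M` in `(B, T)`. Finally the periodic sequence with period
`3112212` gives a point `l` of `L` in `(3.9567, 3.9568)`, and a third tree (208 nodes) shows
that `(3.963341, 3.9633411)` is free of points of `L`, so `l ≤ ν_F`.
-/

namespace Pool.Agent.Results.MP_1240ee_nt.AboveOldWindow

open H86ML

/-- `c` is the left endpoint of Hall's ray in the Lagrange spectrum (the least `c` with
`[c, ∞) ⊆ L`) and `(ν, c)` is the maximal gap of `L` with right endpoint `c`. -/
def IsGapBeforeHallRay (ν c : ℝ) : Prop :=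
  IsLeast {t : ℝ | Set.Ici t ⊆ Lagrange} c ∧ ν < c ∧ ν ∈ Lagrange ∧
    Set.Ioo ν c ∩ Lagrange = ∅

/-- There is a point `v` of `M ∖ L` above `3.945` (in fact
`v = 3.9515545067435191976252694511115460...`) and below `ν_F`; moreover there are points
`l ∈ L` and `x ∉ L` with `v < l < x`. -/
theorem result : ∃ v : ℝ, v ∈ Markov \ Lagrange ∧
    (3.9515545067435191976252694511115460 : ℝ) < v ∧
    v < (3.9515545067435191976252694511115461 : ℝ) ∧
    (∃ l ∈ Lagrange, ∃ x, x ∉ Lagrange ∧ v < l ∧ l < x) ∧
    ∀ ν c : ℝ, IsGapBeforeHallRay ν c → v ∈ Set.Ioo (3.945 : ℝ) ν := by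
  obtain ⟨v, hv, h1, h2⟩ := markov_point
  have hB : (3.9515545067435191976252694511115460 : ℝ) < vl Bw := by
    simp only [vl, Bw]; norm_num
  have hT : vl Tw < (3.9515545067435191976252694511115461 : ℝ) := by
    simp only [vl, Tw]; norm_num
  obtain ⟨l, hl, l1, l2⟩ := lagrange_point
  have hx : (3.96334105 : ℝ) ∉ Lagrange := by
    apply lagrange_gap2
    · simp only [vl, Bg]; norm_num
    · simp only [vl, Tg]; norm_num
  have hlx : l < (3.96334105 : ℝ) := by
    refine lt_trans l2 ?_
    simp only [vl, Tl]; norm_num
  have hvl : v < l := by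
    refine lt_trans (lt_trans h2 hT) (lt_trans ?_ l1)
    simp only [vl, Bl]; norm_num
  refine ⟨v, ⟨hv, lagrange_gap v h1 h2⟩, lt_trans hB h1, lt_trans h2 hT,
    ⟨l, hl, _, hx, hvl, hlx⟩, ?_⟩
  rintro ν c ⟨hc, hνc, -, hgap⟩
  refine ⟨?_, ?_⟩
  · refine lt_trans ?_ (lt_trans hB h1)
    norm_num
  · have hxc : (3.96334105 : ℝ) < c := by
      by_contra hcon
      exact hx (hc.1 (not_lt.1 hcon))
    by_contra hcon
    have : l ∈ Set.Ioo ν c ∩ Lagrange :=
      ⟨⟨lt_of_le_of_lt (not_lt.1 hcon) hvl, lt_trans hlx hxc⟩, hl⟩
    rw [hgap] at this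
    exact this

end Pool.Agent.Results.MP_1240ee_nt.AboveOldWindow
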